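import Mathlib
import Pool.Agent.MP_3c4208_co.U.Main

namespace Pool.Agent.Results.MP_3c4208_co.DominantLetter

open Pool.Agent.MP_3c4208_co

/-- If the largest part `a` of a partition of `n ^ 2` satisfies `1 ≤ n ^ 2 - a ≤ n / 1000`, some
`n × n` board of that type is not solvable. -/
theorem result (n a : ℕ) (t : List ℕ) (hp : IsPartition (n ^ 2) (a :: t)) (h1 : a < n ^ 2)
    (h2 : 1000 * (n ^ 2 - a) ≤ n) :
    ∃ B : Fin n × Fin n → ℕ, HasType B (a :: t) ∧ ¬ Solvable (a :: t) B := by
  have h := hp.2.2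
  rw [List.sum_cons, sq] at h
  rw [sq] at h1 h2
  exact U.main n a t h (by omega) (by omega)

end Pool.Agent.Results.MP_3c4208_co.DominantLetter
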