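import Mathlib
import Pool.Agent.MP_3c4208_co.Q.Fol
import Pool.Agent.MP_3c4208_co.Q.Path2
import Pool.Agent.MP_3c4208_co.Q.Iso2
import Pool.Agent.MP_3c4208_co.Q.Corn
import Pool.Agent.MP_3c4208_co.Q.Main

namespace Pool.Agent.Results.MP_3c4208_co.QuadraticRepeats

open Pool.Agent.MP_3c4208_co

/-- If the parts of size at least two of a partition of `n ^ 2` add up to at most
`max (n / 4) (n ^ 2 / 2500)`, every `n × n` board of that type is solvable. -/
theorem result (n : ℕ) (hn : 3 ≤ n) (lam : List ℕ) (hp : IsPartition (n ^ 2) lam)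
    (hr : (((lam.filter (fun a => 2 ≤ a)).sum : ℕ) : ℚ) ≤ max ((n : ℚ) / 4) ((n : ℚ) ^ 2 / 2500))
    (B : Fin n × Fin n → ℕ) (hB : HasType B lam) : Solvable lam B := by
  refine Q.main Q.iso (Q.corn (Q.path Q.fol)) n lam hn hp.2.2 ?_ B hB
  rcases le_max_iff.1 hr with h | h
  · left
    have : (4 : ℚ) * (((lam.filter (fun a => 2 ≤ a)).sum : ℕ) : ℚ) ≤ n := by linarith
    exact_mod_cast this
  · right
    have : (2500 : ℚ) * (((lam.filter (fun a => 2 ≤ a)).sum : ℕ) : ℚ) ≤ (n : ℚ) ^ 2 := by linarith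
    exact_mod_cast this

end Pool.Agent.Results.MP_3c4208_co.QuadraticRepeats
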