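import Mathlib
import Pool.Agent.MP_3c4208_co.T3.Main

namespace Pool.Agent.Results.MP_3c4208_co.SideThree

open Pool.Agent.MP_3c4208_co

/-- For a partition `lam` of `9`, every `3 × 3` board of type `lam` is solvable exactly when `lam` is
none of `(8,1)`, `(7,2)`, `(7,1,1)`, `(6,3)`, `(5,4)`. -/
theorem result (lam : List ℕ) (h : IsPartition 9 lam) :
    (∀ B : Fin 3 × Fin 3 → ℕ, HasType B lam → Solvable lam B) ↔
      lam ∉ [[8, 1], [7, 2], [7, 1, 1], [6, 3], [5, 4]] :=
  T3.main lam h

end Pool.Agent.Results.MP_3c4208_co.SideThree
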